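import Pool.Agent.Helper1.RK.StC

/-!
Project RK (MP_de00bc_nt), module NRM: normalization.
-/

set_option autoImplicit false

namespace Pool.Agent.Helper24.RK

open Pool.Agent.Helper1.RK
open Polynomial

/-- NRM -/
theorem pNRM (h1 : StREG) (h2 : StFIN) (h3 : StDER) (h4 : StIOT) (h5 : StTRN) (h6 : StPL)
    (h7 : StLD) (h8 : StODD) (h9 : StMB3) : StNRM := by
  intro L _ _ _ ι hι r dl lam u D hC k φ U h τ hG hR hU
  have hl0 : lam k ≠ 0 := by
    intro h0
    have := hC.one k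
    rw [h0, map_zero] at this
    exact this rfl
  have hl1 : lam k ≠ 1 := by
    intro h0
    have := hC.one k
    rw [h0, Derivation.map_one_eq_zero] at this
    exact this rfl
  obtain ⟨P, hP⟩ := (h2 L).1 h hR
  obtain ⟨-, hI2, hI3, -, -, hI6⟩ := h4 L
  have hdeg : P.natDegree ≤ 2 := by
    have h10 := hG.regInf
    rw [hP] at h10
    exact ((hI2 ι hι).2.2 P).1 h10
  have hUn : ¬ Cst U := by
    intro hc
    have h10 := ((hI6 φ).2 U).2 hc
    rw [hG.hu] at h10
    exact hC.nc k h10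
  obtain ⟨o1, o2, o3, n12, n13, n23, t1, t2, t3, d1, d2, d3⟩ :=
    h8 L ι hι (lam k) U hl0 hl1 hUn hG.evenInf τ
  have hev0 : ∀ p : L, ev p (0 : RatFunc L) = 0 ∧ Reg p (0 : RatFunc L) := by
    intro p
    have h10 := (h1 L p).2.2.2.2.1 0
    rw [map_zero] at h10
    exact ⟨h10.2, h10.1⟩
  have hevP : ∀ p : L, ev p h = P.eval p := by
    intro p
    have h10 := ((h1 L p).1 P 1 (by simp)).2
    rw [map_one, div_one, eval_one, div_one] at h10
    rw [hP, h10]
  have hpk : ∀ o : L, o ≠ τ → Odd (ord o (leg (lam k) U)) → P.eval o = dl k o := by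
    intro o ho hodd
    by_contra hne
    apply ho
    apply hU
    refine ⟨hR o, ?_, hodd⟩
    rw [hevP]
    exact hne
  have hleg : leg (lam k) U ≠ 0 := by
    intro h0
    rw [h0] at d1
    have h10 : ord o1 (0 : RatFunc L) = 0 := by
      unfold ord
      simp
    rw [h10] at d1
    exact absurd d1 (by decide)
  obtain ⟨Dt, hDt⟩ := (h3 L).1 0 1
  have hφi : Function.Injective φ := φ.toRingHom.injective
  -- the coefficient derivations
  have hl : ∀ l, l ≠ k → ∃ E : Derivation ℤ (RatFunc L) (RatFunc L), Over (dl l) 0 E ∧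
      (∀ g, D l (φ g) = φ (E g)) ∧ ∀ o, Odd (ord o (leg (lam k) U)) → dl l o = 0 := by
    intro l hlk
    obtain ⟨E, hE⟩ := (h3 L).1 (dl l) 0
    have h10 : D l (φ RatFunc.X) = φ 0 := by
      rw [map_zero]
      exact hG.gen.mem l hlk
    have hT := (h5 L (dl l)).1 φ (D l RatFunc.X) 0 (D l) E ⟨hC.lift l, rfl⟩ hE h10
    have hEU : E U = 0 := by
      apply hφi
      rw [← hT U, hG.hu, map_zero]
      exact hC.kill l k hlk.symm
    refine ⟨E, hE, hT, ?_⟩
    intro o ho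
    have hz := hC.zero l k hlk
    have h11 := (h7 L o (lam k) (dl l) 0 E U hl0 hl1 hz hE (hev0 o).2 hleg).2.2 ho
    have h12 : ¬ Reg o U ∨ dl l (ev o U) = 0 := by
      rcases h11 with h | ⟨-, h⟩
      · exact Or.inl h
      · right
        rcases h with h | h | h
        · rw [h, map_zero]
        · rw [h, Derivation.map_one_eq_zero]
        · rw [h, hz]
    have h13 := ((h6 L o (dl l) 0 E Dt U hE hDt hEU hUn).1 h12).2
    rw [← h13, (hev0 o).1]
  have hM : ∀ l, ∃ E : Derivation ℤ (RatFunc L) (RatFunc L), (∀ g, D l (φ g) = φ (E g)) ∧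
      E (((RatFunc.X - RatFunc.C o1) * RatFunc.C (o2 - o3)) /
        ((RatFunc.X - RatFunc.C o3) * RatFunc.C (o2 - o1))) = 0 := by
    intro l
    by_cases hlk : l = k
    · rw [hlk]
      obtain ⟨E, hE⟩ := (h3 L).1 (dl k) h
      have hT := (h5 L (dl k)).1 φ (D k RatFunc.X) h (D k) E ⟨hC.lift k, rfl⟩ hE hG.hh.symm
      refine ⟨E, hT, ?_⟩
      rw [hP] at hE
      exact h9 L (dl k) P E o1 o2 o3 hdeg hE n12 n13 n23 (hpk o1 t1 d1) (hpk o2 t2 d2)
        (hpk o3 t3 d3)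
    · obtain ⟨E, hE, hT, ho⟩ := hl l hlk
      refine ⟨E, hT, ?_⟩
      refine h9 L (dl l) 0 E o1 o2 o3 (by simp) (by rw [map_zero]; exact hE) n12 n13 n23 ?_ ?_ ?_
      · rw [eval_zero, ho o1 d1]
      · rw [eval_zero, ho o2 d2]
      · rw [eval_zero, ho o3 d3]
  have hdet : (o2 - o3) * (-o3 * (o2 - o1)) - (-o1 * (o2 - o3)) * (o2 - o1) ≠ 0 := by
    have h10 : (o2 - o3) * (-o3 * (o2 - o1)) - (-o1 * (o2 - o3)) * (o2 - o1)
        = (o2 - o3) * (o2 - o1) * (o1 - o3) := by ring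
    rw [h10]
    exact mul_ne_zero (mul_ne_zero (sub_ne_zero.2 n23) (sub_ne_zero.2 n12.symm))
      (sub_ne_zero.2 n13)
  obtain ⟨ψ, hψ⟩ := hI3 _ _ _ _ hdet
  refine ⟨ψ, fun l => ?_⟩
  obtain ⟨E, hT, hE0⟩ := hM l
  have hψ' : ψ RatFunc.X = ((RatFunc.X - RatFunc.C o1) * RatFunc.C (o2 - o3)) /
        ((RatFunc.X - RatFunc.C o3) * RatFunc.C (o2 - o1)) := by
    rw [hψ]
    congr 1
    · rw [map_mul, map_neg]; ring
    · rw [map_mul, map_neg]; ring
  rw [hψ', hT, hE0, map_zero]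

end Pool.Agent.Helper24.RK
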