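import Pool.Agent.Helper1.RK.StF

/-!
Project RK (MP_de00bc_nt), module ADI: infinitely many points.
-/

set_option autoImplicit false

open Polynomial

namespace Pool.Agent.Helper24.RK

open Pool.Agent.Helper1.RK

private lemma cst_of_root {L : Type} [Field L] [IsAlgClosed L] (p : L[X]) (hp : p ≠ 0)
    (g : RatFunc L) (h : Polynomial.eval₂ RatFunc.C g p = 0) : Cst g := by
  have hs := IsAlgClosed.splits p
  rw [hs.eq_prod_roots, Polynomial.eval₂_mul, Polynomial.eval₂_C,
    Polynomial.eval₂_multiset_prod, Multiset.map_map] at h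
  rcases mul_eq_zero.1 h with h | h
  · exfalso
    apply hp
    rw [← Polynomial.leadingCoeff_eq_zero]
    exact (map_eq_zero RatFunc.C).1 h
  · rw [Multiset.prod_eq_zero_iff] at h
    obtain ⟨r, -, hr⟩ := Multiset.mem_map.1 h
    refine ⟨r, ?_⟩
    simp only [Function.comp_apply, Polynomial.eval₂_sub, Polynomial.eval₂_X,
      Polynomial.eval₂_C] at hr
    exact sub_eq_zero.1 hr

/-- one step of doubling -/
private noncomputable def stp {k : Type} [Field k] (a b : k) (Y : RatFunc k) : RatFunc k :=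
  (Y ^ 4 - 2 * RatFunc.C a * Y ^ 2 - 8 * RatFunc.C b * Y + RatFunc.C a ^ 2) / (4 * wei a b Y)

private noncomputable def UU {k : Type} [Field k] (a b : k) : ℕ → RatFunc k
  | 0 => RatFunc.X
  | n + 1 => stp a b (UU a b n)

private lemma sq_step {k : Type} [Field k] [CharZero k] (a b : k) (Y : RatFunc k)
    (hf : wei a b Y ≠ 0) : IsSquare (wei a b (stp a b Y) * wei a b Y) := by
  refine ⟨(Y ^ 6 + 5 * RatFunc.C a * Y ^ 4 + 20 * RatFunc.C b * Y ^ 3 - 5 * RatFunc.C a ^ 2 * Y ^ 2
    - 4 * RatFunc.C a * RatFunc.C b * Y - 8 * RatFunc.C b ^ 2 - RatFunc.C a ^ 3) /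
      (8 * wei a b Y), ?_⟩
  have h0 : wei a b Y ≠ 0 := hf
  have h1 : wei a b (stp a b Y) = (stp a b Y) ^ 3 + RatFunc.C a * stp a b Y + RatFunc.C b := rfl
  rw [h1]
  unfold stp
  field_simp
  unfold wei
  ring

private lemma dbl_step {k : Type} [Field k] [CharZero k] (a b : k) (Y : RatFunc k)
    (hf : wei a b Y ≠ 0) : Dbl a b (stp a b Y) Y := by
  unfold Dbl stp
  field_simp

/-- ADI. infinitely many points -/
theorem pADI (h1 : StDSC) (h2 : StLAM) : StADI := by
  intro k _ _ a b hab I i
  have : CharZero (AlgebraicClosure k) := charZero_of_injective_algebraMap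
    (FaithfulSMul.algebraMap_injective k (AlgebraicClosure k))
  set L := AlgebraicClosure k with hL
  obtain ⟨Λ, hΛX, hΛC, hΛc, -⟩ := h2 k L
  set a' : L := algebraMap k L a with ha'
  set b' : L := algebraMap k L b with hb'
  have hab' : 4 * a' ^ 3 + 27 * b' ^ 2 ≠ 0 := by
    have h3 : algebraMap k L (4 * a ^ 3 + 27 * b ^ 2) = 4 * a' ^ 3 + 27 * b' ^ 2 := by
      simp only [map_add, map_mul, map_pow, map_ofNat, ha', hb']
    rw [← h3]
    exact (_root_.map_ne_zero _).2 hab
  have hΛwei : ∀ g, Λ (wei a b g) = wei a' b' (Λ g) := by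
    intro g
    unfold wei
    simp only [map_add, map_mul, map_pow, hΛC, ha', hb']
  have hwei0 : ∀ Y : RatFunc k, ¬ Cst (Λ Y) → wei a b Y ≠ 0 := by
    intro Y hY h0
    apply hY
    have h3 : wei a' b' (Λ Y) = 0 := by rw [← hΛwei, h0, map_zero]
    refine cst_of_root (Polynomial.X ^ 3 + Polynomial.C a' * Polynomial.X + Polynomial.C b') ?_
      (Λ Y) ?_
    · intro h
      have h4 := congrArg (fun p => Polynomial.coeff p 3) h
      simp at h4
    · simpa [wei, Polynomial.eval₂_add, Polynomial.eval₂_mul] using h3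
  have hstp : ∀ Y : RatFunc k, ¬ Cst (Λ Y) → Dbl a' b' (Λ (stp a b Y)) (Λ Y) := by
    intro Y hY
    have h3 := dbl_step a b Y (hwei0 Y hY)
    unfold Dbl at h3 ⊢
    have h4 := congrArg Λ h3
    rw [← hΛwei]
    simpa only [map_add, map_sub, map_mul, map_pow, map_ofNat, hΛC] using h4
  have hnc : ∀ Y : RatFunc k, ¬ Cst (Λ Y) → ¬ Cst (Λ (stp a b Y)) := by
    intro Y hY hc
    obtain ⟨c, hc⟩ := hc
    apply hY
    have h3 := hstp Y hY
    rw [hc] at h3
    refine cst_of_root (Polynomial.X ^ 4 - Polynomial.C (2 * a') * Polynomial.X ^ 2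
      - Polynomial.C (8 * b') * Polynomial.X + Polynomial.C (a' ^ 2)
      - Polynomial.C (4 * c) * (Polynomial.X ^ 3 + Polynomial.C a' * Polynomial.X
        + Polynomial.C b')) ?_ (Λ Y) ?_
    · intro h
      have h4 := congrArg (fun p => Polynomial.coeff p 4) h
      simp only [mul_add, ← mul_assoc, ← Polynomial.C_mul, Polynomial.coeff_add,
        Polynomial.coeff_sub, Polynomial.coeff_C_mul, Polynomial.coeff_X_pow, Polynomial.coeff_X,
        Polynomial.coeff_C, Polynomial.coeff_zero] at h4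
      norm_num at h4
    · unfold Dbl wei at h3
      simp only [Polynomial.eval₂_add, Polynomial.eval₂_sub, Polynomial.eval₂_mul,
        Polynomial.eval₂_pow, Polynomial.eval₂_X, Polynomial.eval₂_C, map_mul, map_pow, map_ofNat,
        Polynomial.eval₂_ofNat]
      linear_combination h3
  have hU : ∀ n, ¬ Cst (Λ (UU a b n)) ∧ IsSquare (wei a b RatFunc.X * wei a b (UU a b n)) ∧
      dg (Λ (UU a b n)) = 4 ^ n := by
    intro n
    induction n with
    | zero =>
      have hX : Λ (UU a b 0) = RatFunc.X := hΛX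
      refine ⟨?_, ⟨_, rfl⟩, ?_⟩
      · rw [hX]
        rintro ⟨c, hc⟩
        have h3 := congrArg RatFunc.num hc
        rw [RatFunc.num_X, RatFunc.num_C] at h3
        exact Polynomial.X_ne_C c h3
      · rw [hX]
        unfold dg
        rw [RatFunc.num_X, RatFunc.denom_X]
        simp
    | succ n ih =>
      obtain ⟨ih1, ih2, ih3⟩ := ih
      have hn1 : ¬ Cst (Λ (UU a b (n + 1))) := hnc _ ih1
      have hd := h1 L a' b' (Λ (UU a b (n + 1))) (Λ (UU a b n)) hab' hn1 (hstp _ ih1)
      refine ⟨hn1, ?_, ?_⟩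
      · obtain ⟨s, hs⟩ := ih2
        obtain ⟨s', hs'⟩ := sq_step a b (UU a b n) (hwei0 _ ih1)
        have h0 := hwei0 _ ih1
        refine ⟨s * s' / wei a b (UU a b n), ?_⟩
        have hs'' : wei a b (UU a b (n + 1)) * wei a b (UU a b n) = s' * s' := hs'
        field_simp
        linear_combination (s' * s') * hs + (wei a b RatFunc.X * wei a b (UU a b n)) * hs''
      · rw [hd.2.2, ih3, pow_succ]
        ring
  -- the embedding
  set φ₀ : k[X] →+* MvPolynomial I k := (Polynomial.aeval (MvPolynomial.X i) :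
    k[X] →ₐ[k] MvPolynomial I k).toRingHom with hφ₀
  have hφ₀i : Function.Injective φ₀ := transcendental_iff_injective.1 (MvPolynomial.transcendental_X k i)
  set φ : k[X] →+* RF k I := (algebraMap (MvPolynomial I k) (RF k I)).comp φ₀ with hφ
  have hφi : Function.Injective φ :=
    (IsFractionRing.injective (MvPolynomial I k) (RF k I)).comp hφ₀i
  have hφn : nonZeroDivisors k[X] ≤ (nonZeroDivisors (RF k I)).comap φ :=
    nonZeroDivisors_le_comap_nonZeroDivisors_of_injective φ hφi
  set ι : RatFunc k →+* RF k I := RatFunc.liftRingHom φ hφn with hι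
  have hιX : ι RatFunc.X = rv k i := by
    rw [hι, RatFunc.liftRingHom_X]
    simp [hφ, hφ₀, rv]
  have hιC : ∀ c, ι (RatFunc.C c) = rc I c := by
    intro c
    rw [hι, RatFunc.liftRingHom_C]
    simp [hφ, hφ₀, rc, MvPolynomial.algebraMap_eq]
  have hιw : ∀ g, ι (wei a b g) = ι g ^ 3 + rc I a * ι g + rc I b := by
    intro g
    unfold wei
    simp only [map_add, map_mul, map_pow, hιC]
  choose s hs using fun n => (hU n).2.1
  refine Set.infinite_of_injective_forall_mem (f := fun n => (ι (UU a b n), ι (s n))) ?_ ?_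
  · intro m n hmn
    have h3 : ι (UU a b m) = ι (UU a b n) := (Prod.ext_iff.1 hmn).1
    have h4 : UU a b m = UU a b n := ι.injective h3
    have h5 : (4 : ℕ) ^ m = 4 ^ n := by rw [← (hU m).2.2, ← (hU n).2.2, h4]
    exact Nat.pow_right_injective (by norm_num : 2 ≤ 4) h5
  · intro n
    have h3 := congrArg ι (hs n)
    rw [map_mul, map_mul, hιw, hιw, hιX] at h3
    simp only [Set.mem_ofPred_eq]
    rw [h3]
    ring

end Pool.Agent.Helper24.RK
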